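import Pool.Agent.Helper41.LF.GoalsB

/-! # Packet BADN of the project LF -/

set_option autoImplicit false

namespace Pool.Agent.Helper58.LF

open MeasureTheory Finset Pool.Agent.Helper92 _root_.Pool.Agent.Helper41.LF

theorem thm_BADN (hD : S_DYAD) : S_BADN := by
  classical
  intro d R hd hR
  obtain ⟨C, θ, hC, hθ, h⟩ := hD d R hd hR
  set r : ℝ := (2 : ℝ) ^ θ with hr
  have hr1 : 1 < r := Real.one_lt_rpow (by norm_num) hθ
  have hr0 : 0 < r - 1 := by linarith
  have hrp : 0 < r := by linarith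
  refine ⟨C * (r / (r - 1)), θ, by positivity, hθ, fun H B hH => ?_⟩
  rcases Nat.eq_zero_or_pos B with rfl | hB
  · refine ⟨∅, ?_, ?_⟩
    · simp only [Finset.card_empty, Nat.cast_zero]
      positivity
    · rintro ξ - ⟨b, hb1, hb2, -⟩
      omega
  have hH0 : (0 : ℝ) < (H : ℝ) ^ d := by
    have : (0 : ℝ) < H := by exact_mod_cast hH
    positivity
  choose F hF1 hF2 using fun k : ℕ => h H (2 ^ k) hH Nat.one_le_two_pow
  refine ⟨(Finset.range (Nat.log 2 B + 1)).biUnion F, ?_, ?_⟩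
  · have e1 : ∀ k : ℕ, (((2 ^ k : ℕ) : ℝ) / (H : ℝ) ^ d) ^ θ = r ^ k / ((H : ℝ) ^ d) ^ θ := by
      intro k
      rw [Real.div_rpow (Nat.cast_nonneg _) hH0.le]
      congr 1
      push_cast
      rw [hr, ← Real.rpow_natCast, ← Real.rpow_natCast, ← Real.rpow_mul (by norm_num),
        ← Real.rpow_mul (by norm_num), mul_comm]
    have e2 : ((B : ℝ) / (H : ℝ) ^ d) ^ θ = (B : ℝ) ^ θ / ((H : ℝ) ^ d) ^ θ :=
      Real.div_rpow (Nat.cast_nonneg _) hH0.le _
    have hgeo : ∑ k ∈ Finset.range (Nat.log 2 B + 1), r ^ k ≤ r / (r - 1) * (B : ℝ) ^ θ := by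
      rw [geom_sum_eq hr1.ne']
      have h1 : r ^ (Nat.log 2 B) ≤ (B : ℝ) ^ θ := by
        have h2 : ((2 : ℝ) ^ (Nat.log 2 B)) ≤ (B : ℝ) := by
          exact_mod_cast Nat.pow_log_le_self 2 hB.ne'
        have h3 : r ^ (Nat.log 2 B) = ((2 : ℝ) ^ (Nat.log 2 B)) ^ θ := by
          rw [hr, ← Real.rpow_natCast, ← Real.rpow_natCast, ← Real.rpow_mul (by norm_num),
            ← Real.rpow_mul (by norm_num), mul_comm]
        rw [h3]
        exact Real.rpow_le_rpow (by positivity) h2 hθ.le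
      rw [div_mul_eq_mul_div]
      refine div_le_div_of_nonneg_right ?_ hr0.le
      rw [pow_succ]
      nlinarith
    have hHθ : 0 < ((H : ℝ) ^ d) ^ θ := Real.rpow_pos_of_pos hH0 _
    calc (((Finset.range (Nat.log 2 B + 1)).biUnion F).card : ℝ)
        ≤ ∑ k ∈ Finset.range (Nat.log 2 B + 1), ((F k).card : ℝ) := by
          exact_mod_cast Finset.card_biUnion_le
      _ ≤ ∑ k ∈ Finset.range (Nat.log 2 B + 1),
          C * (H : ℝ) ^ (d + 1) / ((H : ℝ) ^ d) ^ θ * r ^ k := by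
          refine Finset.sum_le_sum fun k _ => (hF1 k).trans (le_of_eq ?_)
          rw [e1]
          ring
      _ = C * (H : ℝ) ^ (d + 1) / ((H : ℝ) ^ d) ^ θ *
          ∑ k ∈ Finset.range (Nat.log 2 B + 1), r ^ k := by rw [Finset.mul_sum]
      _ ≤ C * (H : ℝ) ^ (d + 1) / ((H : ℝ) ^ d) ^ θ * (r / (r - 1) * (B : ℝ) ^ θ) :=
          mul_le_mul_of_nonneg_left hgeo (by positivity)
      _ = C * (r / (r - 1)) * (H : ℝ) ^ (d + 1) * ((B : ℝ) / (H : ℝ) ^ d) ^ θ := by
          rw [e2]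
          ring
  · intro ξ hξ hex
    set b := Nat.find hex with hb
    obtain ⟨hb1, hb2, hb3⟩ := Nat.find_spec hex
    rw [Finset.mem_biUnion]
    refine ⟨Nat.log 2 b, Finset.mem_range.2 (Nat.lt_succ_of_le (Nat.log_mono_right hb2)), ?_⟩
    refine hF2 _ ξ hξ ⟨b, Nat.pow_log_le_self 2 (by omega), ?_, hb3⟩ fun b' hb'1 hb'2 hb'3 => ?_
    · have := Nat.lt_pow_succ_log_self (b := 2) (by norm_num) b
      rw [pow_succ] at this
      omega
    · have h4 : b' < b := hb'2.trans_le (Nat.pow_log_le_self 2 (by omega))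
      exact Nat.find_min hex h4 ⟨hb'1, by omega, hb'3⟩

end Pool.Agent.Helper58.LF
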